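import Mathlib
import Pool.Agent.Helper998.DualRep
import Pool.Agent.Helper236.Cycle

/-!
# Cycle ideals and the restricted minor `M(K₅)*`

The dual of the projective geometry `PG(3, 2)` with one point deleted is a connected, simple and
cosimple binary matroid without an `M(K₅)*`-restricted minor whose cycle ideal is not generated
in degrees at most seven.
-/

set_option autoImplicit false

namespace Pool.Agent.Results.MP_1f7bca_co.NotAtMostFive

open Set MvPolynomial
open Pool.Agent.Helper998.VecMatroid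

universe u

/-! ### Definitions -/

section Defs

variable {α β : Type}

/-- `M` is binary: it is represented by vectors over the field with two elements. -/
def IsBinary (M : Matroid α) : Prop :=
  ∃ (n : ℕ) (v : α → (Fin n → ZMod 2)), ∀ I ⊆ M.E, (M.Indep I ↔ LinearIndepOn (ZMod 2) v I)

/-- `M` is connected: it is nonempty and any two elements lie in a common circuit. -/
def IsConnected (M : Matroid α) : Prop :=
  M.E.Nonempty ∧ ∀ e ∈ M.E, ∀ f ∈ M.E, e ≠ f → ∃ C, M.IsCircuit C ∧ e ∈ C ∧ f ∈ C

/-- `M` is simple: it has no loops and no two parallel elements. -/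
def IsSimple (M : Matroid α) : Prop := ∀ e ∈ M.E, ∀ f ∈ M.E, M.Indep {e, f}

/-- A cycle of `M`: a (possibly empty) disjoint union of circuits. -/
def IsCycle (M : Matroid α) (D : Set α) : Prop :=
  ∃ 𝒞 : Set (Set α), (∀ C ∈ 𝒞, M.IsCircuit C) ∧ 𝒞.PairwiseDisjoint id ∧ D = ⋃₀ 𝒞

/-- The finite sets of elements that are cycles of `M`. -/
abbrev Cyc (M : Matroid α) : Type := {D : Finset α // IsCycle M (D : Set α)}

/-- The map `x_D ↦ s ∏_{e ∈ D} t_e`. The variable `s` is `X none`, the variable `t_e` is
`X (some e)`. -/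
noncomputable def cycleMap (K : Type u) [Field K] (M : Matroid α) :
    MvPolynomial (Cyc M) K →ₐ[K] MvPolynomial (Option α) K :=
  aeval (fun D => X none * ∏ e ∈ D.1, X (some e))

/-- The cycle ideal of `M`. -/
noncomputable def cycleIdeal (K : Type u) [Field K] (M : Matroid α) :
    Ideal (MvPolynomial (Cyc M) K) :=
  RingHom.ker (cycleMap K M)

/-- The ideal `I` is generated by homogeneous elements of degree at most `d`. For the cycle ideal
of `M` this says `μ(M) ≤ d`. -/
def GeneratedInDegreeAtMost {K : Type u} [Field K] {σ : Type} (I : Ideal (MvPolynomial σ K))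
    (d : ℕ) : Prop :=
  ∃ G : Set (MvPolynomial σ K), (∀ g ∈ G, ∃ k ≤ d, g.IsHomogeneous k) ∧ Ideal.span G = I

/-- One step of taking a restricted minor: a deletion, a series contraction or a contraction of a
coloop. -/
inductive Step (M : Matroid α) : Matroid α → Prop
  | delete (e : α) (he : e ∈ M.E) : Step M (M.delete {e})
  | series (e f : α) (hef : e ≠ f) (h : M.IsCocircuit {e, f}) : Step M (M.contract {e})
  | coloop (e : α) (h : M.IsColoop e) : Step M (M.contract {e})

/-- Isomorphism of matroids. -/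
def Iso (M : Matroid α) (N : Matroid β) : Prop :=
  ∃ e : M.E ≃ N.E, ∀ I : Set M.E, M.Indep ((↑) '' I) ↔ N.Indep ((↑) '' (e '' I))

/-- `N` is the cycle matroid of the complete graph on five vertices: its ground set is the set of
all edges, and a set of edges is independent if and only if it is acyclic. -/
def IsCycleMatroidK5 (N : Matroid (Sym2 (Fin 5))) : Prop :=
  N.E = (⊤ : SimpleGraph (Fin 5)).edgeSet ∧
    ∀ I ⊆ N.E, N.Indep I ↔ (SimpleGraph.fromEdgeSet I).IsAcyclic

/-- `M` has an `M(K₅)*`-restricted minor. -/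
def HasRestrictedMinor (M : Matroid α) : Prop :=
  ∃ M' : Matroid α, Relation.ReflTransGen Step M M' ∧
    ∃ N : Matroid (Sym2 (Fin 5)), IsCycleMatroidK5 N ∧ Iso M' N✶

end Defs

/-! ### The example -/

/-- The points of `PG(3, 2)` other than `(1, 1, 1, 1)`: the binary digits of `1, ..., 14`. -/
def pt (i : Fin 14) : Fin 4 → ZMod 2 := fun j => if (i.val + 1).testBit j.val then 1 else 0

/-- The dual of `PG(3, 2)` with one point deleted. -/
noncomputable def M0 : Matroid (Fin 14) := (vecMatroid (ZMod 2) pt)✶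

lemma M0_E : M0.E = univ := rfl

lemma M0_binary : IsBinary M0 := by
  obtain ⟨n, φ, h⟩ := Pool.Agent.Helper998.DualRep.dual_rep (F := ZMod 2) pt
  exact ⟨n, φ, fun I _ => h I⟩

/-- The scalar product. -/
def dt (c : Fin 4 → ZMod 2) (i : Fin 14) : ZMod 2 := ∑ j, c j * pt i j

/-- The cycles. -/
def D (c : Fin 4 → ZMod 2) : Finset (Fin 14) := Finset.univ.filter (fun i => dt c i ≠ 0)

lemma mem_D (c : Fin 4 → ZMod 2) (i : Fin 14) : i ∈ D c ↔ dt c i ≠ 0 := by
  simp [D]

lemma dual_eq (f : Module.Dual (ZMod 2) (Fin 4 → ZMod 2)) :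
    ∃ c : Fin 4 → ZMod 2, ∀ i, f (pt i) = dt c i := by
  refine ⟨fun j => f (Pi.single j 1), fun i => ?_⟩
  have h : pt i = ∑ j, pt i j • (Pi.single j 1 : Fin 4 → ZMod 2) := by
    ext k
    simp [Finset.sum_apply, Pi.single_apply]
  conv_lhs => rw [h, map_sum]
  simp only [map_smul, smul_eq_mul, dt]
  exact Finset.sum_congr rfl fun j _ => mul_comm _ _

/-- The functional given by `c`. -/
noncomputable def fn (c : Fin 4 → ZMod 2) : Module.Dual (ZMod 2) (Fin 4 → ZMod 2) :=
  ∑ j, c j • LinearMap.proj j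

lemma fn_apply (c : Fin 4 → ZMod 2) (i : Fin 14) : fn c (pt i) = dt c i := by
  simp [fn, dt]

lemma dt_zero_iff : ∀ c : Fin 4 → ZMod 2, (∃ i, dt c i ≠ 0) ↔ c ≠ 0 := by
  decide +kernel

lemma antichain : ∀ c d : Fin 4 → ZMod 2, d ≠ 0 → (∀ i, dt d i ≠ 0 → dt c i ≠ 0) → d = c := by
  decide +kernel

lemma meet : ∀ c d : Fin 4 → ZMod 2, c ≠ 0 → d ≠ 0 → ∃ i, dt c i ≠ 0 ∧ dt d i ≠ 0 := by
  decide +kernel

lemma both : ∀ e f : Fin 14, ∃ c, dt c e ≠ 0 ∧ dt c f ≠ 0 := by
  decide +kernel

lemma isCircuit_D {c : Fin 4 → ZMod 2} (hc : c ≠ 0) : M0.IsCircuit (D c : Set (Fin 14)) := by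
  have h : (vecMatroid (ZMod 2) pt).IsCocircuit {i | fn c (pt i) ≠ 0} := by
    refine isCocircuit_of_minimal pt (fn c) ?_ ?_
    · obtain ⟨i, hi⟩ := (dt_zero_iff c).2 hc
      exact ⟨i, by rwa [fn_apply]⟩
    · intro g hg hgf i hi
      obtain ⟨d, hd⟩ := dual_eq g
      have hd0 : d ≠ 0 := by
        obtain ⟨j, hj⟩ := hg
        exact (dt_zero_iff d).1 ⟨j, by rwa [← hd]⟩
      have := antichain c d hd0 (fun j hj => by
        have := hgf j (by rwa [hd])
        rwa [fn_apply] at this)
      subst this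
      rw [hd]
      rwa [fn_apply] at hi
  have e : (D c : Set (Fin 14)) = {i | fn c (pt i) ≠ 0} := by
    ext i
    simp [mem_D, fn_apply]
  rw [e]
  exact h

lemma circuit_eq {C : Set (Fin 14)} (h : M0.IsCircuit C) :
    ∃ c : Fin 4 → ZMod 2, c ≠ 0 ∧ C = (D c : Set (Fin 14)) := by
  obtain ⟨f, hf, hs⟩ := exists_of_isCocircuit pt (K := C) h
  obtain ⟨c, hc⟩ := dual_eq f
  refine ⟨c, ?_, ?_⟩
  · obtain ⟨j, hj⟩ := hf
    exact (dt_zero_iff c).1 ⟨j, by rwa [← hc]⟩
  · rw [← hs]
    ext i
    simp [mem_D, hc]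

lemma M0_connected : IsConnected M0 := by
  refine ⟨⟨0, mem_univ _⟩, fun e _ f _ _ => ?_⟩
  obtain ⟨c, h1, h2⟩ := both e f
  exact ⟨_, isCircuit_D ((dt_zero_iff c).1 ⟨e, h1⟩), by simpa [mem_D] using h1,
    by simpa [mem_D] using h2⟩

lemma card_D : ∀ c : Fin 4 → ZMod 2, c ≠ 0 → 3 ≤ (D c).card := by
  decide +kernel

lemma M0_simple : IsSimple M0 := by
  intro e _ f _
  by_contra h
  rw [Matroid.not_indep_iff] at h
  obtain ⟨C, hC, hCi⟩ := h.exists_isCircuit_subset
  obtain ⟨c, hc, rfl⟩ := circuit_eq hCi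
  have h1 := card_D c hc
  have h2 : D c ⊆ ({e, f} : Finset (Fin 14)) := by
    intro x hx
    have := hC (by exact_mod_cast hx)
    simpa using this
  have h3 := Finset.card_le_card h2
  have h4 : ({e, f} : Finset (Fin 14)).card ≤ 2 := Finset.card_le_two
  omega

lemma pt_ne_zero : ∀ e : Fin 14, pt e ≠ 0 := by decide +kernel

lemma pt_inj : ∀ e f : Fin 14, e ≠ f → pt e ≠ pt f := by decide +kernel

lemma pt_pair (e f : Fin 14) : (vecMatroid (ZMod 2) pt).Indep {e, f} := by
  rw [vecMatroid_indep]
  by_cases hef : e = f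
  · subst hef
    rw [pair_eq_singleton]
    exact (linearIndepOn_singleton_iff (ZMod 2)).2 (pt_ne_zero e)
  · rw [LinearIndepOn.pair_iff _ hef]
    intro s t h
    have hz : ∀ x : ZMod 2, x = 0 ∨ x = 1 := by decide
    have hs := hz s
    have ht := hz t
    rcases hs with rfl | rfl <;> rcases ht with rfl | rfl
    · exact ⟨rfl, rfl⟩
    · exfalso
      apply pt_ne_zero f
      simpa using h
    · exfalso
      apply pt_ne_zero e
      simpa using h
    · exfalso
      apply pt_inj e f hef
      rw [one_smul, one_smul] at h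
      have h2 : pt f + pt f = 0 := by
        ext j
        exact CharTwo.add_self_eq_zero _
      exact add_right_cancel (h.trans h2.symm)

lemma M0_cosimple : IsSimple M0✶ := by
  intro e _ f _
  rw [M0, Matroid.dual_dual]
  exact pt_pair e f

/-! ### No restricted minor -/

section Corank

variable {α β : Type}

lemma eRank_delete_le (M : Matroid α) (X : Set α) : (M.delete X).eRank ≤ M.eRank := by
  obtain ⟨B, hB⟩ := (M.delete X).exists_isBase
  rw [← hB.encard_eq_eRank]
  exact (Matroid.delete_indep_iff.1 hB.indep).1.encard_le_eRank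

lemma eRank_contract_le (M : Matroid α) (X : Set α) : (M.contract X).eRank ≤ M.eRank := by
  obtain ⟨B, hB⟩ := (M.contract X).exists_isBase
  rw [← hB.encard_eq_eRank]
  exact hB.indep.of_contract.encard_le_eRank

lemma eRank_contract_nonloop (M : Matroid α) {e : α} (he : M.IsNonloop e) :
    (M.contract {e}).eRank + 1 ≤ M.eRank := by
  obtain ⟨B, hB⟩ := (M.contract {e}).exists_isBase
  have h := (he.indep.contract_indep_iff).1 hB.indep
  rw [← hB.encard_eq_eRank]
  have h2 := h.2.encard_le_eRank
  rwa [encard_union_eq h.1, encard_singleton] at h2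

lemma Step.corank_le {M N : Matroid α} (h : Step M N) : N✶.eRank ≤ M✶.eRank := by
  cases h with
  | delete e he =>
    rw [Matroid.dual_delete]
    exact eRank_contract_le _ _
  | series e f hef h =>
    rw [Matroid.dual_contract]
    exact eRank_delete_le _ _
  | coloop e h =>
    rw [Matroid.dual_contract]
    exact eRank_delete_le _ _

lemma corank_le {M N : Matroid α} (h : Relation.ReflTransGen Step M N) :
    N✶.eRank ≤ M✶.eRank := by
  induction h with
  | refl => exact le_rfl
  | tail _ h ih => exact h.corank_le.trans ih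

lemma Iso.indep_le {M : Matroid α} {N : Matroid β} (h : Iso M N) : M.eRank ≤ N.eRank := by
  obtain ⟨e, he⟩ := h
  obtain ⟨B, hB⟩ := M.exists_isBase
  have h1 : ((↑) '' ((↑) ⁻¹' B : Set M.E) : Set α) = B := by
    rw [Subtype.image_preimage_coe, inter_eq_right]
    exact hB.subset_ground
  have h2 := (he ((↑) ⁻¹' B)).1 (by rw [h1]; exact hB.indep)
  have h3 := h2.encard_le_eRank
  rw [Subtype.val_injective.encard_image, e.injective.encard_image] at h3
  rw [← hB.encard_eq_eRank]
  calc B.encard = ((↑) '' ((↑) ⁻¹' B : Set M.E) : Set α).encard := by rw [h1]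
    _ = ((↑) ⁻¹' B : Set M.E).encard := Subtype.val_injective.encard_image _
    _ ≤ _ := h3

lemma Iso.encard_eq {M : Matroid α} {N : Matroid β} (h : Iso M N) : M.E.encard = N.E.encard := by
  obtain ⟨e, -⟩ := h
  exact encard_congr e

end Corank

lemma corank_M0 : M0✶.eRank ≤ 4 := by
  obtain ⟨B, hB⟩ := M0✶.exists_isBase
  rw [← hB.encard_eq_eRank]
  have h : LinearIndepOn (ZMod 2) pt B := by
    have := hB.indep
    rw [M0, Matroid.dual_dual] at this
    exact this
  have h1 := h.encard_le_toENat_rank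
  simpa using h1

lemma step_M0 {N : Matroid (Fin 14)} (h : Step M0 N) : N✶.eRank ≤ 3 := by
  cases h with
  | delete e he =>
    rw [Matroid.dual_delete]
    have hnl : M0✶.IsNonloop e := by
      rw [← Matroid.indep_singleton]
      have := M0_cosimple e (mem_univ _) e (mem_univ _)
      rwa [pair_eq_singleton] at this
    have h1 := (eRank_contract_nonloop _ hnl).trans corank_M0
    have h2 : ((4 : ℕ) : ℕ∞) = (3 : ℕ) + 1 := rfl
    exact (ENat.add_le_add_iff_right (by simp)).1 (h1.trans h2.le)
  | series e f hef h =>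
    exfalso
    have h1 : M0✶.IsCircuit {e, f} := h
    exact h1.not_indep (M0_cosimple e (mem_univ _) f (mem_univ _))
  | coloop e h =>
    exfalso
    have h1 : M0✶.IsLoop e := h
    have h2 := M0_cosimple e (mem_univ _) e (mem_univ _)
    rw [pair_eq_singleton, Matroid.indep_singleton] at h2
    exact h2.not_isLoop h1

open Pool.Agent.Helper236 in
lemma K5_eRank {N : Matroid (Sym2 (Fin 5))} (hN : IsCycleMatroidK5 N) : 4 ≤ N.eRank := by
  let st : Fin 4 → Sym2 (Fin 5) := fun j => s(0, j.succ)
  have hst : Function.Injective st := by decide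
  have hsub : range st ⊆ (⊤ : SimpleGraph (Fin 5)).edgeSet := by
    rintro _ ⟨j, rfl⟩
    simp only [st, SimpleGraph.mem_edgeSet, SimpleGraph.top_adj]
    exact (Fin.succ_ne_zero j).symm
  have hli : LinearIndepOn (ZMod 2) (diffVec (std (ZMod 2) 5)) (range st) := by
    rw [linearIndepOn_range_iff hst, Fintype.linearIndependent_iff]
    intro g hg i
    have h1 := congrFun hg i.succ
    have h2 : ∀ j : Fin 4, (diffVec (std (ZMod 2) 5) (st j)) i.succ =
        if j = i then 1 else 0 := by
      intro j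
      have h3 : (std (ZMod 2) 5 0 - std (ZMod 2) 5 j.succ) i.succ = if j = i then 1 else 0 := by
        simp only [std, Pi.sub_apply, Pi.single_apply, Fin.succ_ne_zero, if_false, Fin.succ_inj]
        by_cases hij : j = i
        · subst hij
          simp
        · simp [hij, Ne.symm hij]
      rcases diffVec_mk (std (ZMod 2) 5) 0 j.succ with h | h
      · rw [h, h3]
      · have hneg : ∀ x : ZMod 2, -x = x := by decide
        rw [h, ← neg_sub, Pi.neg_apply, h3, hneg]
    simp only [Finset.sum_apply, Pi.smul_apply, Function.comp_apply, h2, smul_eq_mul,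
      mul_ite, mul_one, mul_zero, Finset.sum_ite_eq', Finset.mem_univ, if_true,
      Pi.zero_apply] at h1
    exact h1
  have hac := (acyclic_iff (F := ZMod 2) (range st) hsub).2 hli
  have hind := (hN.2 (range st) (by rw [hN.1]; exact hsub)).2 hac
  have h4 := hind.encard_le_eRank
  rw [← image_univ, hst.encard_image] at h4
  simpa using h4

lemma K5_encard {N : Matroid (Sym2 (Fin 5))} (hN : IsCycleMatroidK5 N) : N.E.encard = 10 := by
  rw [hN.1, ← SimpleGraph.coe_edgeFinset, encard_coe_eq_coe_finsetCard,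
    SimpleGraph.card_edgeFinset_top_eq_card_choose_two]
  decide

lemma M0_no_restricted_minor : ¬ HasRestrictedMinor M0 := by
  rintro ⟨M', hM', N, hN, hiso⟩
  have hE := K5_encard hN
  rcases Relation.ReflTransGen.cases_head hM' with rfl | ⟨M1, h1, h2⟩
  · have h3 := hiso.encard_eq
    rw [Matroid.dual_ground, hE, M0_E] at h3
    simp at h3
  · have h3 : M'✶.eRank ≤ 3 := (corank_le h2).trans (step_M0 h1)
    have h4 := hiso.encard_eq
    have h5 := hiso.indep_le
    have h6 := M'.eRank_add_eRank_dual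
    have h7 := N.eRank_add_eRank_dual
    have h8 := K5_eRank hN
    rw [Matroid.dual_ground, hE] at h4
    rw [h4] at h6
    rw [hE] at h7
    clear hM' hN hiso hE h1 h2 h4
    revert h3 h5 h6 h7 h8
    generalize M'.eRank = a
    generalize M'✶.eRank = b
    generalize N.eRank = c
    generalize N✶.eRank = d
    intro h3 h5 h6 h7 h8
    have ha : a ≠ ⊤ := fun h => by simp [h] at h6
    have hb : b ≠ ⊤ := fun h => by simp [h] at h6
    have hc : c ≠ ⊤ := fun h => by simp [h] at h7
    have hd : d ≠ ⊤ := fun h => by simp [h] at h7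
    lift a to ℕ using ha
    lift b to ℕ using hb
    lift c to ℕ using hc
    lift d to ℕ using hd
    norm_cast at h3 h5 h6 h7 h8
    omega

/-! ### The cycle ideal -/

lemma D_zero : D 0 = ∅ := by decide +kernel

lemma isCycle_D (c : Fin 4 → ZMod 2) : IsCycle M0 (D c : Set (Fin 14)) := by
  by_cases hc : c = 0
  · subst hc
    exact ⟨∅, by simp, by simp, by simp [D_zero]⟩
  · exact ⟨{(D c : Set (Fin 14))}, by simpa using isCircuit_D hc, by simp, by simp⟩

lemma exists_of_isCycle {S : Finset (Fin 14)} (h : IsCycle M0 (S : Set (Fin 14))) :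
    ∃ c, S = D c := by
  obtain ⟨𝒞, h1, h2, h3⟩ := h
  rcases 𝒞.eq_empty_or_nonempty with h4 | ⟨C, hC⟩
  · subst h4
    refine ⟨0, ?_⟩
    rw [D_zero]
    simpa using h3
  · have h5 : 𝒞 = {C} := by
      ext C'
      constructor
      · intro hC'
        by_contra hne
        have h6 := h2 hC hC' (fun h => hne (by simp [h]))
        obtain ⟨c, hc, hCc⟩ := circuit_eq (h1 C hC)
        obtain ⟨d, hd, hCd⟩ := circuit_eq (h1 C' hC')
        obtain ⟨i, hi1, hi2⟩ := meet c d hc hd
        have h7 : i ∈ C := by rw [hCc]; simpa [mem_D] using hi1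
        have h8 : i ∈ C' := by rw [hCd]; simpa [mem_D] using hi2
        exact Set.disjoint_left.1 h6 h7 h8
      · rintro rfl
        exact hC
    obtain ⟨c, hc, hCc⟩ := circuit_eq (h1 C hC)
    refine ⟨c, ?_⟩
    rw [h5, sUnion_singleton, hCc] at h3
    exact_mod_cast h3

lemma D_inj : ∀ c d : Fin 4 → ZMod 2, D c = D d → c = d := by
  decide +kernel

/-- The cycles are indexed by the vectors. -/
noncomputable def psi : (Fin 4 → ZMod 2) ≃ Cyc M0 :=
  Equiv.ofBijective (fun c => (⟨D c, isCycle_D c⟩ : Cyc M0))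
    ⟨fun c d h => D_inj c d (congrArg Subtype.val h), fun S => by
      obtain ⟨c, hc⟩ := exists_of_isCycle S.2
      exact ⟨c, Subtype.ext hc.symm⟩⟩

noncomputable instance : Fintype (Cyc M0) := Fintype.ofEquiv _ psi

/-- The exponent vector of the image of `x_D`. -/
noncomputable def wt (S : Cyc M0) : Option (Fin 14) →₀ ℕ :=
  Finsupp.single none 1 + ∑ e ∈ S.1, Finsupp.single (some e) 1

/-- The exponent vector of the image of a monomial. -/
noncomputable def T (a : Cyc M0 →₀ ℕ) : Option (Fin 14) →₀ ℕ := ∑ S, a S • wt S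

lemma wt_none (S : Cyc M0) : wt S none = 1 := by
  simp [wt]

lemma wt_some (S : Cyc M0) (e : Fin 14) : wt S (some e) = if e ∈ S.1 then 1 else 0 := by
  simp [wt, Finsupp.single_apply]

lemma T_none (a : Cyc M0 →₀ ℕ) : T a none = ∑ c, a (psi c) := by
  rw [T, Finsupp.finsetSum_apply, ← psi.sum_comp]
  simp [wt_none]

lemma T_some (a : Cyc M0 →₀ ℕ) (e : Fin 14) :
    T a (some e) = ∑ c, if dt c e ≠ 0 then a (psi c) else 0 := by
  rw [T, Finsupp.finsetSum_apply, ← psi.sum_comp]
  refine Finset.sum_congr rfl fun c _ => ?_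
  have h : e ∈ (psi c).1 ↔ dt c e ≠ 0 := mem_D c e
  rw [Finsupp.smul_apply, wt_some, smul_eq_mul]
  by_cases h2 : dt c e ≠ 0
  · rw [if_pos (h.2 h2), if_pos h2, mul_one]
  · rw [if_neg (fun h3 => h2 (h.1 h3)), if_neg h2, mul_zero]

lemma cycleMap_monomial (K : Type u) [Field K] (a : Cyc M0 →₀ ℕ) (r : K) :
    cycleMap K M0 (monomial a r) = monomial (T a) r := by
  have h1 : ∀ S : Cyc M0, (X none * ∏ e ∈ S.1, X (some e) : MvPolynomial (Option (Fin 14)) K) =
      monomial (wt S) 1 := by
    intro S
    have h2 : (monomial (wt S) (1 : K)) = monomial (Finsupp.single none 1) 1 *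
        monomial (∑ e ∈ S.1, Finsupp.single (some e) 1) 1 := by
      rw [monomial_mul, one_mul]
      rfl
    rw [h2, monomial_sum_one]
    rfl
  rw [cycleMap, aeval_monomial, Finsupp.prod_fintype _ _ (by simp)]
  simp only [h1, monomial_pow, one_pow]
  rw [← monomial_sum_one, ← T, MvPolynomial.algebraMap_eq, C_mul_monomial, mul_one]

/-- The character. -/
def chi (t c : Fin 4 → ZMod 2) : ℤ := if ∑ j, t j * c j = 0 then 1 else -1

lemma orth : ∀ c d : Fin 4 → ZMod 2, ∑ t, chi t c * chi t d = if c = d then 16 else 0 := by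
  decide +kernel

/-- the deleted point -/
def s0 : Fin 4 → ZMod 2 := fun _ => 1

lemma cover : ∀ t : Fin 4 → ZMod 2, t = 0 ∨ t = s0 ∨ ∃ i, t = pt i := by
  decide +kernel

lemma chi_zero_left : ∀ c : Fin 4 → ZMod 2, chi 0 c = 1 := by decide +kernel

lemma chi_pt (i : Fin 14) (c : Fin 4 → ZMod 2) : chi (pt i) c = if dt c i ≠ 0 then -1 else 1 := by
  have h : ∑ j, pt i j * c j = dt c i := Finset.sum_congr rfl fun j _ => mul_comm _ _
  rw [chi, h]
  by_cases h2 : dt c i = 0
  · rw [if_pos h2, if_neg (not_not.2 h2)]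
  · rw [if_neg h2, if_pos h2]

lemma fourier (δ : (Fin 4 → ZMod 2) → ℤ) (h0 : ∑ c, δ c = 0)
    (h : ∀ i, ∑ c, (if dt c i ≠ 0 then δ c else 0) = 0) (c : Fin 4 → ZMod 2) :
    δ c = chi s0 c * δ 0 := by
  have h1 : ∀ t, t ≠ s0 → ∑ c, chi t c * δ c = 0 := by
    intro t ht
    rcases cover t with rfl | h2 | ⟨i, rfl⟩
    · simpa [chi_zero_left] using h0
    · exact absurd h2 ht
    · have h3 : ∀ c, chi (pt i) c * δ c = δ c - 2 * (if dt c i ≠ 0 then δ c else 0) := by
        intro c
        rw [chi_pt]
        split_ifs <;> ring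
      rw [Finset.sum_congr rfl fun c _ => h3 c, Finset.sum_sub_distrib, ← Finset.mul_sum, h0, h i]
      ring
  have h2 : ∀ c, 16 * δ c = chi s0 c * ∑ d, chi s0 d * δ d := by
    intro c
    have h3 : ∑ t, chi t c * ∑ d, chi t d * δ d = 16 * δ c := by
      simp only [Finset.mul_sum]
      rw [Finset.sum_comm]
      have h4 : ∀ d, ∑ t, chi t c * (chi t d * δ d) = (if c = d then 16 else 0) * δ d := by
        intro d
        rw [← orth c d, Finset.sum_mul]
        exact Finset.sum_congr rfl fun t _ => by ring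
      rw [Finset.sum_congr rfl fun d _ => h4 d]
      simp
    rw [← h3]
    exact (Finset.sum_eq_single s0 (fun t _ ht => by rw [h1 t ht, mul_zero]) (by simp))
  have h5 := h2 c
  have h6 := h2 0
  have h7 : chi s0 0 = 1 := by decide +kernel
  rw [h7, one_mul] at h6
  rw [← h6] at h5
  linarith

lemma half (v : ℤ) (hv : v = 1 ∨ v = -1) :
    (Finset.univ.filter (fun c => chi s0 c = v)).card = 8 := by
  rcases hv with rfl | rfl <;> decide +kernel

lemma chi_val : ∀ c, chi s0 c = 1 ∨ chi s0 c = -1 := by decide +kernel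

lemma eq_of_T_eq {a b : Cyc M0 →₀ ℕ} (hT : T a = T b) (ha : ∑ c, a (psi c) ≤ 7)
    (hb : ∑ c, b (psi c) ≤ 7) : a = b := by
  have h := fourier (fun c => (a (psi c) : ℤ) - b (psi c)) (by
      have := congrArg (fun f => (f none : ℤ)) hT
      simp only [T_none, Nat.cast_sum] at this
      rw [Finset.sum_sub_distrib, this, sub_self]) (by
      intro i
      have := congrArg (fun f => (f (some i) : ℤ)) hT
      simp only [T_some, Nat.cast_sum, Nat.cast_ite, Nat.cast_zero] at this
      have h2 : ∀ c, (if dt c i ≠ 0 then (a (psi c) : ℤ) - b (psi c) else 0) =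
          (if dt c i ≠ 0 then (a (psi c) : ℤ) else 0) -
            (if dt c i ≠ 0 then (b (psi c) : ℤ) else 0) := by
        intro c
        split_ifs <;> ring
      rw [Finset.sum_congr rfl fun c _ => h2 c, Finset.sum_sub_distrib, this, sub_self])
  have key : ∀ (a b : Cyc M0 →₀ ℕ) (v : ℤ), (v = 1 ∨ v = -1) → (∑ c, a (psi c) ≤ 7) →
      (∀ c, chi s0 c = v → 1 ≤ (a (psi c) : ℤ) - b (psi c)) → False := by
    intro a b v hv ha h
    have h1 : (Finset.univ.filter (fun c => chi s0 c = v)).card • 1 ≤
        ∑ c ∈ Finset.univ.filter (fun c => chi s0 c = v), a (psi c) := by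
      refine Finset.card_nsmul_le_sum _ _ _ fun c hc => ?_
      have := h c (Finset.mem_filter.1 hc).2
      omega
    have h2 : ∑ c ∈ Finset.univ.filter (fun c => chi s0 c = v), a (psi c) ≤ ∑ c, a (psi c) :=
      Finset.sum_le_sum_of_subset (Finset.filter_subset _ _)
    rw [half v hv, smul_eq_mul, mul_one] at h1
    omega
  have h0 : (a (psi 0) : ℤ) - b (psi 0) = 0 := by
    rcases lt_trichotomy ((a (psi 0) : ℤ) - b (psi 0)) 0 with hl | hl | hl
    · exfalso
      refine key a b (-1) (Or.inr rfl) ha fun c hc => ?_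
      have := h c
      simp only [hc] at this
      linarith
    · exact hl
    · exfalso
      refine key a b 1 (Or.inl rfl) ha fun c hc => ?_
      have := h c
      simp only [hc] at this
      linarith
  ext S
  obtain ⟨c, rfl⟩ := psi.surjective S
  have := h c
  simp only [h0, mul_zero] at this
  omega

lemma zero_of_mem {K : Type u} [Field K] {g : MvPolynomial (Cyc M0) K} {k : ℕ} (hk : k ≤ 7)
    (hg : g.IsHomogeneous k) (hmem : g ∈ cycleIdeal K M0) : g = 0 := by
  by_contra hne
  obtain ⟨a, ha⟩ := MvPolynomial.support_nonempty.2 hne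
  have hdeg : ∀ b ∈ g.support, ∑ c, b (psi c) ≤ 7 := by
    intro b hb
    have h1 := hg.degree_eq_sum_deg_support hb
    have h2 : ∑ i ∈ b.support, b i = ∑ S, b S :=
      Finset.sum_subset (Finset.subset_univ _) fun S _ hS => by simpa using hS
    rw [psi.sum_comp (fun S => b S), ← h2, ← h1]
    exact hk
  have h1 : cycleMap K M0 g = 0 := hmem
  have h2 : coeff (T a) (cycleMap K M0 g) = coeff a g := by
    conv_lhs => rw [← g.support_sum_monomial_coeff, map_sum]
    simp only [cycleMap_monomial, coeff_sum, coeff_monomial]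
    rw [Finset.sum_eq_single a]
    · simp
    · intro b hb hba
      rw [if_neg]
      intro hT
      exact hba (eq_of_T_eq hT (hdeg b hb) (hdeg a ha))
    · intro h
      exact absurd ha h
  rw [h1, coeff_zero] at h2
  exact (mem_support_iff.1 ha) h2.symm

/-- The exponent vector of one side of the relation. -/
noncomputable def side (v : ℤ) : Cyc M0 →₀ ℕ :=
  ∑ c, if chi s0 c = v then Finsupp.single (psi c) 1 else 0

lemma side_apply (v : ℤ) (c : Fin 4 → ZMod 2) : side v (psi c) = if chi s0 c = v then 1 else 0 := by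
  rw [side, Finsupp.finsetSum_apply]
  have : ∀ d, (if chi s0 d = v then Finsupp.single (psi d) 1 else 0 : Cyc M0 →₀ ℕ) (psi c) =
      if d = c then (if chi s0 c = v then 1 else 0) else 0 := by
    intro d
    by_cases hdc : d = c
    · subst hdc
      by_cases h : chi s0 d = v
      · simp [h]
      · simp [h]
    · by_cases h : chi s0 d = v
      · simp [h, hdc]
      · simp [h, hdc]
  rw [Finset.sum_congr rfl fun d _ => this d]
  simp

lemma T_side : T (side 1) = T (side (-1)) := by
  ext o
  rcases o with _ | e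
  · rw [T_none, T_none]
    simp only [side_apply]
    decide +kernel
  · rw [T_some, T_some]
    simp only [side_apply]
    revert e
    decide +kernel

lemma side_ne : side 1 ≠ side (-1) := by
  intro h
  have := DFunLike.congr_fun h (psi 0)
  rw [side_apply, side_apply] at this
  revert this
  decide +kernel

lemma not_generated (K : Type u) [Field K] : ¬ GeneratedInDegreeAtMost (cycleIdeal K M0) 7 := by
  rintro ⟨G, hG, hspan⟩
  have h1 : ∀ g ∈ G, g = 0 := by
    intro g hg
    obtain ⟨k, hk, hh⟩ := hG g hg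
    exact zero_of_mem hk hh (by rw [← hspan]; exact Ideal.subset_span hg)
  have h2 : cycleIdeal K M0 = ⊥ := by
    rw [← hspan, Ideal.span_eq_bot]
    exact h1
  have h3 : (monomial (side 1) 1 - monomial (side (-1)) 1 : MvPolynomial (Cyc M0) K) ∈
      cycleIdeal K M0 := by
    rw [cycleIdeal, RingHom.mem_ker, map_sub]
    have := cycleMap_monomial K (side 1) 1
    have h4 := cycleMap_monomial K (side (-1)) 1
    rw [this, h4, T_side, sub_self]
  rw [h2, Ideal.mem_bot, sub_eq_zero] at h3
  have h4 := congrArg (coeff (side 1)) h3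
  rw [coeff_monomial, coeff_monomial, if_pos rfl, if_neg side_ne.symm] at h4
  exact one_ne_zero h4

/-- There is a connected, simple and cosimple binary matroid without an `M(K₅)*`-restricted minor
whose cycle ideal, over every field, is not generated in degrees at most seven. -/
theorem result : ∃ M : Matroid (Fin 14), M.E = univ ∧ IsBinary M ∧ IsConnected M ∧ IsSimple M ∧
    IsSimple M✶ ∧ ¬ HasRestrictedMinor M ∧
    ∀ (K : Type u) [Field K], ¬ GeneratedInDegreeAtMost (cycleIdeal K M) 7 :=
  ⟨M0, M0_E, M0_binary, M0_connected, M0_simple, M0_cosimple, M0_no_restricted_minor,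
    fun K _ => not_generated K⟩

end Pool.Agent.Results.MP_1f7bca_co.NotAtMostFive
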